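import Pool.Agent.H32.RK.TargetsE

/-!
MP_63b6b1_nt over number fields, board hpk_modules, row RZB: zeros of norm one at the
infinite places.
-/

set_option autoImplicit false

namespace Pool.Agent.H35.RK

open Finset NumberField Pool.Agent.H32.RQ Pool.Agent.H32.RK

theorem qf_smulC {s : ℕ} (f : Mon s → ℂ) (x : Fin s → ℂ) (t : ℂ) :
    qf f (fun j => t * x j) = t ^ 2 * qf f x := by
  unfold qf
  rw [mul_sum]
  refine sum_congr rfl fun p _ => ?_
  ring

theorem exists_zero (K : Type) [Field K] [NumberField K] {s : ℕ} (c : Fin 2 → Mon s → 𝓞 K)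
    (h : LS c) (w : InfinitePlace K) :
    ∃ x : Fin s → ℂ, x ≠ 0 ∧ Rl w x ∧ ∀ i, qf (ce w c i) x = 0 := by
  by_cases hw : w.IsReal
  · obtain ⟨x, hx, hz⟩ := h.1 (InfinitePlace.embedding_of_isReal hw)
    refine ⟨fun j => (x j : ℂ), ?_, ?_, ?_⟩
    · intro h0
      refine hx (funext fun j => ?_)
      have h1 := congrFun h0 j
      simpa using h1
    · intro _ j
      exact Complex.ofReal_im _
    · intro i
      have h1 : qf (ce w c i) (fun j => (x j : ℂ)) =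
          ((qf (fun p => InfinitePlace.embedding_of_isReal hw (c i p)) x : ℝ) : ℂ) := by
        unfold qf ce
        rw [Complex.ofReal_sum]
        refine sum_congr rfl fun p _ => ?_
        rw [Complex.ofReal_mul, Complex.ofReal_mul, InfinitePlace.embedding_of_isReal_apply]
      rw [h1, hz i, Complex.ofReal_zero]
  · obtain ⟨x, hx, hz⟩ := h.2.1 w.embedding
    exact ⟨x, hx, fun h => absurd h hw, hz⟩

theorem pf_RZB (K : Type) [Field K] [NumberField K] : T_RZB K := by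
  intro s A d c hLS w
  obtain ⟨x, hx, hR, hz⟩ := exists_zero K c hLS w
  obtain ⟨j₁, hj₁⟩ : ∃ j, x j ≠ 0 := by
    by_contra hcon
    push Not at hcon
    exact hx (funext hcon)
  obtain ⟨j₀, -, hj₀⟩ := exists_max_image univ (fun j => ‖x j‖) ⟨j₁, mem_univ _⟩
  have hpos : 0 < ‖x j₀‖ := (norm_pos_iff.2 hj₁).trans_le (hj₀ j₁ (mem_univ _))
  obtain ⟨t, ht⟩ : ∃ t : ℝ, t = ‖x j₀‖⁻¹ := ⟨_, rfl⟩
  have htn : ‖(t : ℂ)‖ = ‖x j₀‖⁻¹ := by
    rw [Complex.norm_real, ht, norm_inv, norm_norm]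
  obtain ⟨y, hy⟩ : ∃ y : Fin s → ℂ, y = fun j => (t : ℂ) * x j := ⟨_, rfl⟩
  have h0 : Rl w y := by
    intro hw j
    rw [hy]
    show ((t : ℂ) * x j).im = 0
    rw [Complex.im_ofReal_mul, hR hw j, mul_zero]
  have h1 : ∀ j, ‖y j‖ ≤ 1 := by
    intro j
    rw [hy]
    show ‖(t : ℂ) * x j‖ ≤ 1
    rw [norm_mul, htn, inv_mul_le_one₀ hpos]
    exact hj₀ j (mem_univ _)
  have h2 : ‖y j₀‖ = 1 := by
    rw [hy]
    show ‖(t : ℂ) * x j₀‖ = 1
    rw [norm_mul, htn, inv_mul_cancel₀ hpos.ne']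
  have h3 : ∀ i, qf (ce w c i) y = 0 := by
    intro i
    rw [hy, qf_smulC, hz i, mul_zero]
  by_cases h : ∃ j l, d * (A : ℝ) ^ 2 ≤ ‖jm (ce w c) y j l‖
  · left
    refine ⟨y, h0, h1, ⟨j₀, h2⟩, fun i => ?_, h⟩
    rw [h3 i, norm_zero, zero_mul]
  · right
    push Not at h
    exact ⟨y, h0, h1, ⟨j₀, h2⟩, h3, h⟩

end Pool.Agent.H35.RK
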